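import Pool.Agent.Run7.h702.DV.Gold
import Pool.Agent.Run7.h702.DV.FacB
import Pool.Agent.Run7.h702.CL.Gold
import Pool.Agent.Run7.h702.AT.F

/-!
# The Goldbach representation numbers of all terms of almost every Collatz trajectory, and of all bilinear values of all
factorisations of almost every integer

(1), (2) Let `f` be any function which tends to infinity. For almost all `m` (natural density) the trajectory of `m` under
the Collatz map takes a value smaller than `f m`, and *every* even multiple `n = u t`, `1 ≤ u ≤ (log t)^U`, of every term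
`t` before the first such value satisfies the asymptotic formula of Hardy and Littlewood for the number of its
representations as a sum of two primes, also if one of the primes is restricted to an arbitrary window of length at
least `n / (log n)^W`. All but at most `K N / (log Y)^A` of the `m ≤ N` have this property up to the first value smaller
than `Y`.

(3) For all but `N / (log N)^A` of the positive integers `m ≤ N` the following is true: for ALL factorisations `m = d e` and
all integers `α, β, γ, c` of at most logarithmic size, `γ ≠ 0`, `γ d + α ≠ 0`, `γ e + β ≠ 0`, the same is true for the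
number `n = γ m + β d + α e + c`, if it is even and positive. (For instance `n = (d + a) (e + b) + c`, or
`n = m + d + m / d`, for all divisors `d` of `m`.)

Definitions used (in `Pool.Agent.H560R3.GB`): `g n` is the number of ordered pairs of primes with sum `n` (`r₂(n; ℙ)` in the
problem); `sing n = 2 C₂ ∏_{p ∣ n, p > 2} (p - 1) / (p - 2)`, the singular series, where
`C₂ = ∏_{p > 2} (1 - 1 / (p - 1) ^ 2)`; `HL n = sing n * n / (log n)²`.

Proof. (1), (2): by the class theorem (`R460/GH`) the exceptional `n` are rare in the residue classes modulo the powers of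
`3`; the mixing of the Syracuse random variables at fine scales (starting libraries `H499R2`, `R344/TH`) carries this from
the lowest scales to all scales (`Run7/h702/AT`). (3): for `d ≤ e` one has `n = (γ d + α) e + β d + c`, and `e` varies. The
greatest common divisor of `β d + c` and `γ d + α` divides `γ c - α β`. If this number is not zero, the theorem of the
starting library on the exceptional set in the residue classes of every modulus (`R460/GH`) applies. If it is zero, then
`γ n = (γ d + α) (γ e + β)`, and the theorem on the multiples of the moduli without divisors in a very sparse set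
(`Y883/T3`) applies.
-/

set_option autoImplicit false

namespace Pool.Agent.Results.MP_629a14_nt.AllFactorisations

open Finset Filter Topology
open Pool.Agent.H560R3.GB (g HL sing)

/-- The number of primes `p` with `y₁ < p ≤ y₂` such that `n - p` is a prime. -/
def count (n y₁ y₂ : ℕ) : ℕ := ((Ioc y₁ y₂).filter (fun p => p.Prime ∧ (n - p).Prime)).card

/-- (1) The formula of Hardy and Littlewood for `g n` holds with a relative error of at most `ε`; (2) in every
window `(y₁, y₂] ⊆ (0, n]` of a length of at least `n / (log n)^W` the number of primes `p` such that `n - p` is a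
prime is `sing n * (y₂ - y₁) / (log n)²` with a relative error of at most `ε`. -/
def Formula (ε : ℝ) (W n : ℕ) : Prop :=
  |(g n : ℝ) - HL n| ≤ ε * HL n ∧
  ∀ y₁ y₂ : ℕ, y₁ < y₂ → y₂ ≤ n → (n : ℝ) / Real.log n ^ W ≤ (y₂ : ℝ) - y₁ →
    |(count n y₁ y₂ : ℝ) - sing n * ((y₂ : ℝ) - y₁) / Real.log n ^ 2| ≤
      ε * (sing n * ((y₂ : ℝ) - y₁) / Real.log n ^ 2)

/-- There are a factorisation `m = d e` and integers `α, β, γ, c` with absolute values at most `K`, `γ ≠ 0`,
`γ d + α ≠ 0`, `γ e + β ≠ 0`, such that `γ m + β d + α e + c` is a positive even number `n` for which `Formula ε W n`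
is false. -/
def Exceptional (ε : ℝ) (W : ℕ) (K : ℝ) (m : ℕ) : Prop :=
  ∃ d e : ℕ, d * e = m ∧ ∃ α β γ c : ℤ, |(α : ℝ)| ≤ K ∧ |(β : ℝ)| ≤ K ∧ |(γ : ℝ)| ≤ K ∧ |(c : ℝ)| ≤ K ∧
    γ ≠ 0 ∧ γ * d + α ≠ 0 ∧ γ * e + β ≠ 0 ∧
    ∃ n : ℕ, 0 < n ∧ 2 ∣ n ∧ (n : ℤ) = γ * m + β * d + α * e + c ∧ ¬ Formula ε W n

theorem cnt_eq (n : ℕ) : Pool.Agent.W93.PG.cnt n 0 n = g n := by
  unfold Pool.Agent.W93.PG.cnt g
  refine card_bij (fun p _ => (p, n - p)) ?_ ?_ ?_
  · intro p hp
    rw [mem_filter, mem_Ioc] at hp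
    rw [mem_filter, HasAntidiagonal.mem_antidiagonal]
    exact ⟨by simp only; omega, hp.2⟩
  · intro p _ p' _ h
    exact congrArg Prod.fst h
  · rintro ⟨a, b⟩ h
    rw [mem_filter, HasAntidiagonal.mem_antidiagonal] at h
    obtain ⟨h1, h2, h3⟩ := h
    simp only at h1 h2 h3
    have ha := h2.pos
    refine ⟨a, ?_, ?_⟩
    · rw [mem_filter, mem_Ioc]
      refine ⟨⟨ha, by omega⟩, h2, ?_⟩
      have : n - a = b := by omega
      rw [this]
      exact h3
    · have : n - a = b := by omega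
      simp [this]

theorem formula_of (ε : ℝ) (W : ℕ) : ∃ n₀ : ℕ, ∀ n : ℕ, n₀ ≤ n → 2 ∣ n →
    Pool.Agent.W93.PG.WinP ε W n → Formula ε W n := by
  refine ⟨3, fun n hn _ hw => ⟨?_, hw⟩⟩
  have hn3 : (3 : ℝ) ≤ n := by exact_mod_cast hn
  have hL1 : 1 ≤ Real.log n := by
    rw [Real.le_log_iff_exp_le (by linarith)]
    have := Real.exp_one_lt_d9
    linarith
  have h1 := hw 0 n (by omega) le_rfl (by
    rw [Nat.cast_zero, sub_zero]
    exact div_le_self (Nat.cast_nonneg _) (one_le_pow₀ hL1))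
  rw [cnt_eq] at h1
  have e : sing n * ((n : ℝ) - ((0 : ℕ) : ℝ)) / Real.log n ^ 2 = HL n := by
    unfold Pool.Agent.H560R3.GB.HL
    push_cast
    ring
  rw [e] at h1
  exact h1

/-- The Collatz map. -/
def collatz (n : ℕ) : ℕ := if n % 2 = 0 then n / 2 else 3 * n + 1

/-- The Collatz trajectory of `m` takes a value smaller than `Y`, and for all its terms `t = T^j m` before some such value
and all `1 ≤ u ≤ (log t)^U` the number `u t`, if it is even, satisfies the formula. -/
def AllTermsGood (ε : ℝ) (W U : ℕ) (Y : ℝ) (m : ℕ) : Prop :=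
  ∃ k : ℕ, ((collatz^[k] m : ℕ) : ℝ) < Y ∧ ∀ j < k, ∀ u : ℕ, 1 ≤ u → (u : ℝ) ≤ Real.log (collatz^[j] m : ℕ) ^ U →
    2 ∣ u * collatz^[j] m → Formula ε W (u * collatz^[j] m)

theorem few (ε : ℝ) (hε : 0 < ε) (W : ℕ) : Run7.h702.CL.Few0 (2 / 3) (fun c => ((1 : ℕ) : ℤ) * c + 0)
    (fun _ c => ¬ Run7.h702.CL.Qs (fun n => 2 ∣ n ∧ ¬ Formula ε W n) c) := by
  obtain ⟨n₀, hn₀⟩ := formula_of ε W
  have h := Run7.h702.CL.Win.few0 (P := Formula ε W) ⟨ε, hε, W, n₀, hn₀⟩
  simpa only [Nat.cast_one] using h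

/-- For all `ε > 0` and all `A`, `B`, `W` there is an `N₀` such that for all `N ≥ N₀` at most `N / (log N)^A` of the
positive integers `m ≤ N` are exceptional with respect to coefficients up to `(log N)^B`. -/
theorem factorisations (ε : ℝ) (hε : 0 < ε) (A B W : ℕ) :
    ∃ N₀ : ℕ, ∀ N : ℕ, N₀ ≤ N →
      ({m : ℕ | 1 ≤ m ∧ m ≤ N ∧ Exceptional ε W (Real.log N ^ B) m}.ncard : ℝ) ≤ (N : ℝ) / Real.log N ^ A := by
  obtain ⟨N₀, hN₀⟩ := Run7.h702.DV.fac_bound _ (Run7.h702.DV.gold_H1 _ ε hε W (formula_of ε W))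
    (Run7.h702.DV.gold_H2 _ ε hε W (formula_of ε W)) A B
  refine ⟨N₀, fun N hN => ?_⟩
  have hL0 : 0 ≤ Real.log N ^ B := pow_nonneg (Real.log_natCast_nonneg _) _
  refine le_trans ?_ (hN₀ N hN ⌊Real.log N ^ B⌋₊ (Nat.floor_le hL0))
  have hK : ∀ z : ℤ, |(z : ℝ)| ≤ Real.log N ^ B → |z| ≤ ((⌊Real.log N ^ B⌋₊ : ℕ) : ℤ) := by
    intro z hz
    have h1 : z.natAbs ≤ ⌊Real.log N ^ B⌋₊ := by
      apply Nat.le_floor
      rw [Nat.cast_natAbs]
      push_cast
      exact hz
    rw [← Int.natCast_natAbs]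
    exact_mod_cast h1
  have hsub : {m : ℕ | 1 ≤ m ∧ m ≤ N ∧ Exceptional ε W (Real.log N ^ B) m} ⊆
      {m : ℕ | 1 ≤ m ∧ m ≤ N ∧ Run7.h702.DV.FacBad (fun n => 2 ∣ n ∧ ¬ Formula ε W n)
        ⌊Real.log N ^ B⌋₊ m} := by
    rintro m ⟨h1, h2, d, e, h3, α, β, γ, c, h4, h5, h6, h7, h8, h9, h10, n, h11, h12, h13, h14⟩
    have hv : Run7.h702.DV.val α β γ c d e = n := by
      unfold Run7.h702.DV.val
      rw [h13, ← h3]
      push_cast
      ring
    refine ⟨h1, h2, d, e, h3, α, β, γ, c, hK α h4, hK β h5, hK γ h6, hK c h7, h8, h9, h10, ?_, ?_⟩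
    · rw [hv]
      exact_mod_cast h11
    · rw [hv, Int.toNat_natCast]
      exact ⟨h12, h14⟩
  have hfin : {m : ℕ | 1 ≤ m ∧ m ≤ N ∧ Run7.h702.DV.FacBad (fun n => 2 ∣ n ∧ ¬ Formula ε W n)
        ⌊Real.log N ^ B⌋₊ m}.Finite :=
    (Set.finite_Iic N).subset fun m hm => hm.2.1
  exact_mod_cast Set.ncard_le_ncard hsub hfin

open Classical in
/-- (1) All but at most `K N / (log Y)^A` of the positive integers `m ≤ N` satisfy: the Collatz trajectory of `m` takes a
value smaller than `Y`, and all the even multiples `u t`, `1 ≤ u ≤ (log t)^U`, of all its terms `t` before it satisfy the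
formula. (2) For every `f → ∞` this is true for almost all `m`, with `Y = f m`. (3) All factorisations. -/
theorem result (ε : ℝ) (hε : 0 < ε) (W : ℕ) :
    (∀ A U : ℕ, ∃ K : ℝ, 0 < K ∧ ∀ Y : ℝ, 2 ≤ Y → ∀ N : ℕ,
      (((Icc 1 N).filter (fun m : ℕ => ¬ AllTermsGood ε W U Y m)).card : ℝ) ≤ K * N / Real.log Y ^ A) ∧
    (∀ (U : ℕ) (f : ℕ → ℝ), Tendsto f atTop atTop →
      Tendsto (fun N : ℕ => (((Icc 1 N).filter (fun m : ℕ => AllTermsGood ε W U (f m) m)).card : ℝ) / N) atTop (𝓝 1)) ∧
    (∀ A B : ℕ, ∃ N₀ : ℕ, ∀ N : ℕ, N₀ ≤ N →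
      ({m : ℕ | 1 ≤ m ∧ m ≤ N ∧ Exceptional ε W (Real.log N ^ B) m}.ncard : ℝ) ≤ (N : ℝ) / Real.log N ^ A) := by
  have hPS : ∀ n : ℕ, (2 ∣ n ∧ ¬ Formula ε W n) ↔ ¬ (2 ∣ n → Formula ε W n) := fun n => Classical.not_imp.symm
  refine ⟨fun A U => ?_, fun U f hf => ?_, fun A B => factorisations ε hε A B W⟩
  · exact Run7.h702.AT.all_prop (θ := 2 / 3) (by norm_num) (P := fun n => 2 ∣ n → Formula ε W n) hPS 1 le_rfl
      (few ε hε W) A U
  · exact Run7.h702.AT.all_prop_almost (θ := 2 / 3) (by norm_num) (P := fun n => 2 ∣ n → Formula ε W n) hPS 1 le_rfl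
      (few ε hε W) U f hf

end Pool.Agent.Results.MP_629a14_nt.AllFactorisations
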