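import Pool.Agent.R460.SC.Fb
import Pool.Agent.R460.SC.Ga
import Pool.Agent.Run7.h702.CL.Adv
import Pool.Agent.Run7.h702.AT.G

set_option autoImplicit false

/-!
# Conjecture F for all the terms of almost every Collatz trajectory as discriminants, and for arbitrary affine images of `m`

Fix integers `a > 0` and `b`.

(1), (2) Let `F` be any function which tends to infinity. For almost all `m` (natural density) the trajectory of `m` under
the Collatz map takes a value smaller than `F m`, and for *every* term `t` before the first such value and *every*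
nonzero integer `|u| ≤ (log t)^U` the polynomial `f(x) = a x² + b x + c`, `c ≥ 1`, of discriminant `-u t`, if it exists and
is admissible, satisfies Conjecture F at its own scale: `C(a, b, c)` converges and

`π_f(y) = 2 C(a, b, c) ∑_{x ≤ y} 1 / log f(x) + O(√c / (log c)^C)` for all `y ≤ √c`.

All but at most `K N / (log Y)^A` of the `m ≤ N` have this property up to the first value smaller than `Y`, for all `Y`
and `N`.

(3) Let `F(D)`, for every `D`, be an *arbitrary* set of at most `(log N)^B` triples `(h, q, r)`, which may depend on `N` in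
any way. A triple stands for the affine map `m ↦ q (m - h) / D + r` from the integers `m ≡ h (mod D)` to the class `r`
modulo `q`; it is used if its slope `q / D` is between `(log N)^(-B)` and `(log N)^B`, `|h|, |r| ≤ N (log N)^B`, and `q` has
at most `(log N)^B` divisors and a greatest common divisor of at most `(log N)^B` with the discriminant `b² - 4 a r`. For
all but at most `N / (log N)^A` of the integers `m ≤ N`: for *every* `D ≤ N ^ (1 / 2 - ρ)` and *every* triple `(h, q, r)`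
of `F(D)` with `m ≡ h (mod D)`, the constant term `c = q (m - h) / D + r`, if it is positive and `(a, b, c)` is admissible,
satisfies the same conclusion. Example: `c = m + m / D + r` for all the divisors `D ≤ N ^ (1 / 2 - ρ)` of `m` (for which
`D + 1` has few divisors), with integers `r` which depend on `D` in an arbitrary way.

Proof. Both parts use the class theorem for the moduli up to `X ^ (1 / 2 - ρ)` (`R460/SC`), passed to the own scale of `c`
(`Run7/h702/CL/Few`). (1), (2): it shows that the bad discriminants are rare in the residue classes modulo the powers of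
`3`, up to `exp (C √(log X))`; the mixing of the Syracuse random variables at fine scales and in natural density (starting
libraries `H499R2`, `R344/TH`) carries this from the lowest scales to all scales (`Run7/h702/AT`). (3): a summation over
`D` (`Run7/h702/CL/Adv`).
-/

namespace Pool.Agent.Results.MP_a17b09_nt.AffineImagesOnAllSmallModuli

open Finset Filter Topology

/-- The polynomial. -/
def f (a b c : ℤ) (t : ℕ) : ℤ := a * (t : ℤ) ^ 2 + b * (t : ℤ) + c

/-- The triple `(a, b, c)`, `a > 0`, is admissible. -/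
def Admissible (a b c : ℤ) : Prop :=
  Int.gcd (Int.gcd a b : ℤ) c = 1 ∧ ¬ (Even (a + b) ∧ Even c) ∧ ¬ IsSquare (b ^ 2 - 4 * a * c)

/-- The products which define `C(a, b, c)`, over the primes `p ≤ z` (`jacobiSym Δ p` is the Legendre symbol). -/
noncomputable def partialC (a b c : ℤ) (z : ℕ) : ℝ :=
  (if Odd (a + b) then 1 / 2 else 1) *
    (∏ p ∈ (Icc 3 z).filter (fun p : ℕ => p.Prime ∧ (p : ℤ) ∣ a ∧ (p : ℤ) ∣ b), (p : ℝ) / (p - 1)) *
    ∏ p ∈ (Icc 3 z).filter (fun p : ℕ => p.Prime ∧ ¬ (p : ℤ) ∣ a),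
      (1 - (jacobiSym (b ^ 2 - 4 * a * c) p : ℝ) / (p - 1))

/-- `K = C(a, b, c)`: the products over the primes, in increasing order, converge to `K`. -/
def IsC (a b c : ℤ) (K : ℝ) : Prop := Tendsto (partialC a b c) atTop (𝓝 K)

/-- `π_f(y)`. -/
def count (a b c : ℤ) (y : ℕ) : ℕ := ((Icc 1 y).filter (fun t : ℕ => (f a b c t).toNat.Prime)).card

/-- The conclusion for one constant term `c ≥ 1`. -/
def Good (a b : ℤ) (C : ℕ) (c : ℤ) : Prop :=
  (∃ t : ℕ, 1 ≤ t ∧ (t : ℤ) ^ 2 ≤ 2 * c ∧ (f a b c t).toNat.Prime) ∧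
  ∃ K : ℝ, IsC a b c K ∧ ∀ y : ℕ, (y : ℤ) ^ 2 ≤ c →
    |(count a b c y : ℝ) - 2 * K * ∑ t ∈ Icc 1 y, 1 / Real.log ((f a b c t : ℤ) : ℝ)| ≤
      Real.sqrt c / Real.log c ^ C

/-- The affine map `m ↦ q (m - h) / D + r` from the class `h` modulo `D` to the class `r` modulo `q` is used:
its slope is between `1 / V` and `V`, `h` and `r` are at most `N V` in absolute value, and `q` has at most `V` divisors
and a greatest common divisor of at most `V` with the discriminant `b² - 4 a r`. -/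
def Usable (a b : ℤ) (N : ℕ) (V : ℝ) (D : ℕ) (h : ℤ) (q : ℕ) (r : ℤ) : Prop :=
  (D : ℝ) ≤ q * V ∧ (q : ℝ) ≤ D * V ∧ |(h : ℝ)| ≤ N * V ∧ |(r : ℝ)| ≤ N * V ∧
    (q.divisors.card : ℝ) ≤ V ∧ (Int.gcd (b ^ 2 - 4 * a * r) q : ℝ) ≤ V

open Classical in
/-- The number of the `m`, `1 ≤ m ≤ N`, for which there are `D ≤ Y` and a usable triple `(h, q, r)` in `F D` with
`m ≡ h (mod D)`, such that `c = q (m - h) / D + r` is positive, `(a, b, c)` is admissible and the conclusion fails. -/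
noncomputable def exceptions (a b : ℤ) (C N : ℕ) (Y V : ℝ) (F : ℕ → Finset (ℤ × ℕ × ℤ)) : ℕ :=
  ((Icc 1 N).filter (fun m : ℕ => ∃ D : ℕ, 1 ≤ D ∧ (D : ℝ) ≤ Y ∧ ∃ h q r, (h, q, r) ∈ F D ∧ Usable a b N V D h q r ∧
    ∃ t : ℤ, (m : ℤ) = h + D * t ∧ 1 ≤ q * t + r ∧ Admissible a b (q * t + r) ∧ ¬ Good a b C (q * t + r))).card

lemma not_dvd {a b c : ℤ} (h : Admissible a b c) {p : ℕ} (hp : p.Prime) (ha : (p : ℤ) ∣ a) (hb : (p : ℤ) ∣ b) :
    ¬ (p : ℤ) ∣ c := by
  intro hc
  have h1 : (p : ℤ) ∣ (Int.gcd (Int.gcd a b : ℤ) c : ℤ) := Int.dvd_coe_gcd (Int.dvd_coe_gcd ha hb) hc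
  rw [h.1] at h1
  have h2 : p ∣ 1 := by exact_mod_cast h1
  exact hp.one_lt.ne' (Nat.dvd_one.1 h2)

/-- an admissible polynomial has no fixed prime divisor -/
lemma no_fixed {a b c : ℤ} (h : Admissible a b c) (p : ℕ) (hp : p.Prime) : ∃ m : ℕ, ¬ (p : ℤ) ∣ f a b c m := by
  by_contra hcon
  push Not at hcon
  have h0 := hcon 0
  have h1 := hcon 1
  have h2 := hcon 2
  unfold f at h0 h1 h2
  push_cast at h0 h1 h2
  have g0 : (p : ℤ) ∣ c := by simpa using h0
  have g1 : (p : ℤ) ∣ a + b := by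
    have : (p : ℤ) ∣ (a * 1 ^ 2 + b * 1 + c) - c := dvd_sub h1 g0
    have e : (a * 1 ^ 2 + b * 1 + c) - c = a + b := by ring
    rwa [e] at this
  have g2 : (p : ℤ) ∣ 2 * a := by
    have : (p : ℤ) ∣ (a * 2 ^ 2 + b * 2 + c) - c - 2 * (a + b) := dvd_sub (dvd_sub h2 g0) (Dvd.dvd.mul_left g1 2)
    have e : (a * 2 ^ 2 + b * 2 + c) - c - 2 * (a + b) = 2 * a := by ring
    rwa [e] at this
  by_cases hp2 : p = 2
  · subst hp2
    exact h.2.1 ⟨even_iff_two_dvd.2 (by exact_mod_cast g1), even_iff_two_dvd.2 (by exact_mod_cast g0)⟩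
  · have hpz : Prime (p : ℤ) := Nat.prime_iff_prime_int.1 hp
    rcases hpz.dvd_or_dvd g2 with g | g
    · have : p ∣ 2 := by exact_mod_cast g
      exact hp2 ((Nat.prime_dvd_prime_iff_eq hp Nat.prime_two).1 this)
    · have gb : (p : ℤ) ∣ b := (dvd_add_right g).1 g1
      exact not_dvd h hp g gb g0

/-- the conclusion at the scale `X` -/
def GoodX (a b : ℤ) (C X : ℕ) (c : ℤ) : Prop :=
  (∃ t : ℕ, 1 ≤ t ∧ t ^ 2 ≤ X ∧ (f a b c t).toNat.Prime) ∧
  ∃ K : ℝ, IsC a b c K ∧ ∀ y : ℕ, y ^ 2 ≤ X →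
    |(count a b c y : ℝ) - 2 * K * ∑ t ∈ Icc 1 y, 1 / Real.log ((f a b c t : ℤ) : ℝ)| ≤ Real.sqrt X / Real.log X ^ C

theorem few (a b : ℤ) (ha : 0 < a) (C : ℕ) : Run7.h702.CL.Few (1 / 2) (fun c => b ^ 2 - 4 * a * c)
    (fun X c => 1 ≤ c ∧ Admissible a b c ∧ ¬ GoodX a b C X c) := by
  classical
  intro ρ hρ A T
  obtain ⟨X₀, h0⟩ := Pool.Agent.R460.SC.fin_true (b := b) ha ρ hρ A C T
  refine ⟨X₀, fun X hX q hq1 hqX hτ c₀ hb => le_trans ?_ (h0 X hX q hq1 hqX hτ c₀ hb)⟩
  have hf : ∀ (c : ℤ) (t : ℕ), Pool.Agent.R460.SB.fv (-a) (-b) c t = f a b c t := by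
    intro c t
    unfold Pool.Agent.R460.SB.fv f
    ring
  have hr : ∀ (c : ℤ) (p : ℕ),
      Pool.Agent.H373R2.T7.nuB (Pool.Agent.R460.SB.QS (-a) (-b) c) p = Pool.Agent.R460.SC.om a b c p := by
    intro c p
    unfold Pool.Agent.R460.SC.om Pool.Agent.H373R2.T7.nuB Pool.Agent.R460.SB.QS
    have e : ∀ m : ℕ, ((p : ℤ) ∣ c - (-a * (m : ℤ) ^ 2 + -b * (m : ℤ))) ↔
        (p : ℤ) ∣ a * (m : ℤ) ^ 2 + b * (m : ℤ) + c := by
      intro m
      have e1 : c - (-a * (m : ℤ) ^ 2 + -b * (m : ℤ)) = a * (m : ℤ) ^ 2 + b * (m : ℤ) + c := by ring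
      rw [e1]
    congr 1
    ext m
    simp only [mem_filter, e]
  have hs : ∀ c : ℤ, Admissible a b c → ∀ z : ℕ, 2 ≤ z →
      Pool.Agent.R460.SB.Sz (-a) (-b) c z = 2 * partialC a b c z := by
    intro c hc z hz
    have e1 := Pool.Agent.R460.SC.cf_eq hc.2.1 (fun p hp h1 h2 => not_dvd hc hp h1 h2) (fun p hp h2 hpa => by
      have hpa' : ¬ (p : ℤ) ∣ -a := by rwa [dvd_neg]
      have h1 := Pool.Agent.R460.SB.nu_leg (-a) (-b) c hp (by omega) hpa'
      have h3 : 4 * (-a) * c + (-b) ^ 2 = b ^ 2 - 4 * a * c := by ring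
      rw [h3, hr] at h1
      exact_mod_cast h1) hz
    rw [Pool.Agent.R460.SB.Sz_prod]
    have e2 : partialC a b c z = Pool.Agent.R460.SC.cf a b c z := rfl
    rw [e2, ← e1]
    unfold Pool.Agent.H373R2.T7.pz
    refine prod_congr rfl fun p _ => ?_
    rw [hr]
  have hg : ∀ c : ℤ, Admissible a b c → Pool.Agent.R460.SC.GoodT a b C X c → GoodX a b C X c := by
    intro c hc hgt
    obtain ⟨g1, S, g2, g3⟩ := hgt
    simp only [hf] at g1 g3
    refine ⟨g1 (fun p hp => no_fixed hc p hp), S / 2, ?_, fun y hy => ?_⟩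
    · have e1 : Tendsto (fun z : ℕ => Pool.Agent.R460.SB.Sz (-a) (-b) c z / 2) atTop (𝓝 (S / 2)) := g2.div_const 2
      refine e1.congr' ?_
      filter_upwards [eventually_ge_atTop 2] with z hz
      rw [hs c hc z hz]
      ring
    · have e2 : 2 * (S / 2) = S := by ring
      rw [e2]
      exact g3 y hy
  unfold Run7.h702.CL.num
  apply Nat.cast_le.2
  apply card_le_card
  intro c hc
  rw [Run7.h702.CL.mem_bad, abs_le] at hc
  rw [mem_filter, mem_Icc]
  exact ⟨⟨hc.2.2.1, hc.1.2⟩, hc.2.1, fun h => hc.2.2.2.2 (hg c hc.2.2.2.1 h)⟩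

theorem own (a b : ℤ) (ha : 0 < a) (C : ℕ) : Run7.h702.CL.Few (1 / 2) (fun c => b ^ 2 - 4 * a * c)
    (fun _ c => ¬ (1 ≤ c → Admissible a b c → Good a b C c)) := by
  refine Run7.h702.CL.Few.own (by norm_num) (few a b ha (C + 1)) (fun c => 1 ≤ c → Admissible a b c → Good a b C c)
    100 ?_
  intro X c hX hcX hXc hng
  rw [Classical.not_imp, Classical.not_imp] at hng
  obtain ⟨hc1, hadm, hng⟩ := hng
  refine ⟨hc1, hadm, fun hg => hng ?_⟩
  obtain ⟨⟨t, ht1, ht2, ht3⟩, K, g2, g3⟩ := hg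
  rw [abs_of_pos (by omega)] at hcX hXc
  have hcr : (c : ℝ) ≤ X := by exact_mod_cast hcX
  have hXr : (X : ℝ) ≤ 2 * c := by exact_mod_cast hXc
  have hX100 : (100 : ℝ) ≤ X := by exact_mod_cast hX
  have hc50 : (50 : ℝ) ≤ c := by linarith
  have ht2' : (t : ℤ) ^ 2 ≤ X := by exact_mod_cast ht2
  refine ⟨⟨t, ht1, by linarith, ht3⟩, K, g2, fun y hy => ?_⟩
  refine (g3 y ?_).trans ?_
  · have : (y : ℤ) ^ 2 ≤ X := hy.trans hcX
    exact_mod_cast this
  have hla : 2 ≤ Real.log c := by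
    rw [Real.le_log_iff_exp_le (by linarith)]
    have h1 : Real.exp 2 = Real.exp 1 * Real.exp 1 := by rw [← Real.exp_add]; norm_num
    have h2 := Real.exp_one_lt_d9
    have h3 := Real.exp_pos 1
    rw [h1]
    nlinarith
  have hlX : Real.log c ≤ Real.log X := Real.log_le_log (by linarith) hcr
  have hs : Real.sqrt X ≤ 2 * Real.sqrt c := by
    have h1 : Real.sqrt X ≤ Real.sqrt (2 ^ 2 * c) := Real.sqrt_le_sqrt (by linarith)
    rw [Real.sqrt_mul (by norm_num), Real.sqrt_sq (by norm_num)] at h1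
    exact h1
  calc Real.sqrt X / Real.log X ^ (C + 1) ≤ (2 * Real.sqrt c) / Real.log c ^ (C + 1) := by
        apply div_le_div₀ (by positivity) hs (by positivity)
        exact pow_le_pow_left₀ (by linarith) hlX _
    _ = (Real.sqrt c / Real.log c ^ C) * (2 / Real.log c) := by
        rw [pow_succ]
        have : Real.log c ≠ 0 := by linarith
        field_simp
    _ ≤ (Real.sqrt c / Real.log c ^ C) * 1 := by
        apply mul_le_mul_of_nonneg_left _ (by positivity)
        rw [div_le_one (by linarith)]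
        exact hla
    _ = _ := mul_one _

/-- The Collatz map. -/
def collatz (n : ℕ) : ℕ := if n % 2 = 0 then n / 2 else 3 * n + 1

/-- The Collatz trajectory of `m` takes a value smaller than `Y`, and for all its terms `t = T^j m` before some such value
and all `0 < |u| ≤ (log t)^U` the polynomial `a x² + b x + c`, `c ≥ 1`, of discriminant `-u t`, if it exists and is
admissible, satisfies the conclusion. -/
def AllTermsGood (a b : ℤ) (C U : ℕ) (Y : ℝ) (m : ℕ) : Prop :=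
  ∃ k : ℕ, ((collatz^[k] m : ℕ) : ℝ) < Y ∧ ∀ j < k, ∀ u c : ℤ, u ≠ 0 →
    (u.natAbs : ℝ) ≤ Real.log (collatz^[j] m : ℕ) ^ U → 4 * a * c - b ^ 2 = u * (collatz^[j] m : ℕ) →
      1 ≤ c → Admissible a b c → Good a b C c

theorem affine (a b : ℤ) (ha : 0 < a) (ρ : ℝ) (hρ : 0 < ρ) (A B C : ℕ) :
    ∃ N₀ : ℕ, ∀ N : ℕ, N₀ ≤ N → ∀ F : ℕ → Finset (ℤ × ℕ × ℤ),
      (∀ D : ℕ, ((F D).card : ℝ) ≤ Real.log N ^ B) →
        (exceptions a b C N ((N : ℝ) ^ (1 / 2 - ρ)) (Real.log N ^ B) F : ℝ) ≤ N / Real.log N ^ A := by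
  classical
  obtain ⟨N₀, h⟩ := Run7.h702.CL.adv (by norm_num) (own a b ha C) ρ hρ A B
  refine ⟨N₀, fun N hN F hF => le_trans ?_ (h N hN F hF)⟩
  unfold exceptions
  apply Nat.cast_le.2
  apply card_le_card
  intro m hm
  rw [mem_filter] at hm ⊢
  obtain ⟨hm1, D, hD1, hD2, h, q, r, hF', hU, t, ht, h1, h2, h3⟩ := hm
  exact ⟨hm1, D, hD1, hD2, (h, q, r), hF', hU, t, ht, fun hc => h3 (hc h1 h2)⟩

open Classical in
/-- (1) All but at most `K N / (log Y)^A` of the `m ≤ N` satisfy: the Collatz trajectory of `m` takes a value smaller than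
`Y`, and the conclusion is true for the discriminants `-u t`, `0 < |u| ≤ (log t)^U`, for all the terms `t` before it.
(2) For every `F → ∞` this is true for almost all `m`, with `Y = F m`. (3) Affine images of `m`. -/
theorem result (a b : ℤ) (ha : 0 < a) :
    (∀ A C U : ℕ, ∃ K : ℝ, 0 < K ∧ ∀ Y : ℝ, 2 ≤ Y → ∀ N : ℕ,
      (((Icc 1 N).filter (fun m : ℕ => ¬ AllTermsGood a b C U Y m)).card : ℝ) ≤ K * N / Real.log Y ^ A) ∧
    (∀ (C U : ℕ) (F : ℕ → ℝ), Tendsto F atTop atTop →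
      Tendsto (fun N : ℕ => (((Icc 1 N).filter (fun m : ℕ => AllTermsGood a b C U (F m) m)).card : ℝ) / N) atTop
        (𝓝 1)) ∧
    (∀ ρ : ℝ, 0 < ρ → ∀ A B C : ℕ, ∃ N₀ : ℕ, ∀ N : ℕ, N₀ ≤ N → ∀ F : ℕ → Finset (ℤ × ℕ × ℤ),
      (∀ D : ℕ, ((F D).card : ℝ) ≤ Real.log N ^ B) →
        (exceptions a b C N ((N : ℝ) ^ (1 / 2 - ρ)) (Real.log N ^ B) F : ℝ) ≤ N / Real.log N ^ A) := by
  refine ⟨fun A C U => ?_, fun C U F hF => ?_, fun ρ hρ A B C => affine a b ha ρ hρ A B C⟩
  · exact Run7.h702.AT.all_disc (θ := 1 / 2) (by norm_num) ha.ne' (own a b ha C) A U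
  · exact Run7.h702.AT.all_disc_almost (θ := 1 / 2) (by norm_num) ha.ne' (own a b ha C) U F hF

end Pool.Agent.Results.MP_a17b09_nt.AffineImagesOnAllSmallModuli
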